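import Mathlib
import Pool.Agent.Work.MP_71a505_up.Defs
import Pool.Agent.Work.MP_71a505_up_helper31.SZ2

namespace Pool.Agent.Work.MP_71a505_up

variable {a b c r s t W e h α β γ δ x d : ℝ}

namespace F36

/-- `f = W fm(e, t / W) - (1 + a² + x²) / (2t)` -/
theorem f_eq (R : RD a b c r s t W e h α β γ δ) (X : RX a b c r s t x d) {τ : ℝ} (hτ : 0 < τ)
    (ht : t = τ * W) :
    2 * (W + e * W - t) + a * x - e ^ 2 * W = W * fm e τ - (1 + a ^ 2 + x ^ 2) / (2 * t) := by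
  have h1 := X.axt
  have hW := R.hW
  have ht0 := R.ht
  have key : 2 * t * (2 * (W + e * W - t) + a * x - e ^ 2 * W) =
      (e ^ 2 * W) ^ 2 + 2 * (e ^ 2 * W) * (W + e * W - t) - 2 * (W + e * W - t) ^ 2
        - 1 - a ^ 2 - x ^ 2 := by
    linear_combination h1 - R.s2 + R.r2 + R.acb + 2 * R.t2 - 2 * R.r2 - 2 * R.bca
  have e1 : 2 * (W + e * W - t) + a * x - e ^ 2 * W =
      ((e ^ 2 * W) ^ 2 + 2 * (e ^ 2 * W) * (W + e * W - t) - 2 * (W + e * W - t) ^ 2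
        - 1 - a ^ 2 - x ^ 2) / (2 * t) := by
    rw [← key]; field_simp
  rw [e1]
  unfold fm
  rw [ht]
  field_simp
  ring

theorem qD_pos (R : RD a b c r s t W e h α β γ δ) : 0 < qD e h := by
  have h1 : 0 < qD e h * W := by
    have : qD e h * W = δ ^ 2 := by rw [R.D2]; rfl
    rw [this]; exact pow_pos R.hδ 2
  exact pos_of_mul_pos_left h1 R.hW.le

theorem s_sq (R : RD a b c r s t W e h α β γ δ) :
    s ^ 2 * qD e h = qB e h * (h + 1 - e) ^ 2 * e ^ 2 * W ^ 2 := by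
  have hW := R.hW
  have h1 : (s * δ) ^ 2 = (β * ((h + 1 - e) * e * W)) ^ 2 := by rw [R.sβ]
  have h2 : s ^ 2 * (qD e h * W) = qB e h * W * ((h + 1 - e) * e * W) ^ 2 := by
    have e1 : qD e h * W = δ ^ 2 := by rw [R.D2]; rfl
    have e2 : qB e h * W = β ^ 2 := by rw [R.B2]; rfl
    rw [e1, e2]; linear_combination h1
  have h3 : (s ^ 2 * qD e h) * W = (qB e h * (h + 1 - e) ^ 2 * e ^ 2 * W ^ 2) * W := by
    linear_combination h2
  exact mul_right_cancel₀ hW.ne' h3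

theorem r_sq (R : RD a b c r s t W e h α β γ δ) :
    r ^ 2 * qD e h = h * e * (h + 3) ^ 2 * e ^ 2 * W ^ 2 := by
  have hW := R.hW
  have h1 : (r * δ) ^ 2 = (α * ((h + 3) * e * W)) ^ 2 := by rw [R.rα]
  have h2 : r ^ 2 * (qD e h * W) = h * e * W * ((h + 3) * e * W) ^ 2 := by
    have e1 : qD e h * W = δ ^ 2 := by rw [R.D2]; rfl
    have e2 : h * e * W = α ^ 2 := by rw [R.A2]
    rw [e1, e2]; linear_combination h1
  have h3 : (r ^ 2 * qD e h) * W = (h * e * (h + 3) ^ 2 * e ^ 2 * W ^ 2) * W := by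
    linear_combination h2
  exact mul_right_cancel₀ hW.ne' h3

theorem ax_eq (R : RD a b c r s t W e h α β γ δ) (X : RX a b c r s t x d) {u q : ℝ} (hu : 0 < u)
    (hq : 0 < q) (ht : t = u * q * W) :
    a * x = W * ((qB e h * (h + 1 - e) ^ 2 * e ^ 2 + h * e * (h + 3) ^ 2 * e ^ 2)
        / (2 * (qD e h * (u * q)))) - (1 + a ^ 2 + x ^ 2) / (2 * t) := by
  have hD := qD_pos R
  have hW := R.hW
  have ht0 := R.ht
  have h1 := X.axt
  have e1 : a * x = (s ^ 2 + r ^ 2 - x ^ 2 - 1 - a ^ 2) / (2 * t) := by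
    rw [← h1]; field_simp
  have es : s ^ 2 = qB e h * (h + 1 - e) ^ 2 * e ^ 2 * W ^ 2 / qD e h := by
    rw [← s_sq R]; field_simp
  have er : r ^ 2 = h * e * (h + 3) ^ 2 * e ^ 2 * W ^ 2 / qD e h := by
    rw [← r_sq R]; field_simp
  rw [e1, es, er, ht]
  field_simp
  ring

theorem xab_eq (R : RD a b c r s t W e h α β γ δ) (X : RX a b c r s t x d) :
    x * (α * β) = W * (e * (4 + 2 * e + h) * (h + 1 - e) / (2 * (h + 3))
        + h * e * (h + 3) / (2 * (h + 1 - e)))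
      + h * e * (h + 3) / (2 * (h + 1 - e)) * W * ((x ^ 2 - 1 - a ^ 2) / r ^ 2) := by
  have hD := qD_pos R
  have hW := R.hW
  have he := R.he
  have hh := R.hh
  have hr := R.hr
  have h2 : 0 < h + 1 - e := by linarith [R.hL2]
  have h3 : 0 < h + 3 := by linarith
  have hy := X.sy
  have e0 : r * s * (qD e h * W) = α * β * ((h + 3) * (h + 1 - e) * e ^ 2 * W ^ 2) := by
    have e1 : qD e h * W = δ ^ 2 := by rw [R.D2]; rfl
    rw [e1]
    linear_combination s * δ * R.rα + α * ((h + 3) * e * W) * R.sβ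
  have eab : α * β = r * s * qD e h / ((h + 3) * (h + 1 - e) * e ^ 2 * W) := by
    rw [eq_div_iff (by positivity)]
    have : (α * β * ((h + 3) * (h + 1 - e) * e ^ 2 * W)) * W = (r * s * qD e h) * W := by
      linear_combination -e0
    exact mul_right_cancel₀ hW.ne' this
  have e1 : x * (α * β) = qD e h / (2 * (h + 3) * (h + 1 - e) * e ^ 2 * W) *
      (s ^ 2 + r ^ 2 + (x ^ 2 - 1 - a ^ 2)) := by
    rw [eab]
    have : s ^ 2 + r ^ 2 + (x ^ 2 - 1 - a ^ 2) = 2 * (r * s * x) := by linear_combination -hy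
    rw [this]
    field_simp
  have es := s_sq R
  have er := r_sq R
  have er' : qD e h = h * e * (h + 3) ^ 2 * e ^ 2 * W ^ 2 / r ^ 2 := by
    rw [← er]; field_simp
  have e2 : qD e h * (s ^ 2 + r ^ 2 + (x ^ 2 - 1 - a ^ 2)) =
      qB e h * (h + 1 - e) ^ 2 * e ^ 2 * W ^ 2 + h * e * (h + 3) ^ 2 * e ^ 2 * W ^ 2
       + h * e * (h + 3) ^ 2 * e ^ 2 * W ^ 2 * ((x ^ 2 - 1 - a ^ 2) / r ^ 2) := by
    have e3 : qD e h * (x ^ 2 - 1 - a ^ 2) =
        h * e * (h + 3) ^ 2 * e ^ 2 * W ^ 2 * ((x ^ 2 - 1 - a ^ 2) / r ^ 2) := by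
      rw [er']; ring
    linear_combination es + er + e3
  have e4 : x * (α * β) = (qD e h * (s ^ 2 + r ^ 2 + (x ^ 2 - 1 - a ^ 2))) /
      (2 * (h + 3) * (h + 1 - e) * e ^ 2 * W) := by
    rw [e1]; ring
  rw [e4, e2]
  unfold qB
  field_simp
  ring

/-- the exact formula -/
theorem F_eq (R : RD a b c r s t W e h α β γ δ) (X : RX a b c r s t x d) {q : ℝ}
    (hqe : q = γ / δ) :
    -33 * α ^ 2 - 63 * (e ^ 2 * W) + 33 * (2 * W - γ * δ) + 75 * (a * x)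
      - 43 * (2 * (W + e * W - t) + a * x - e ^ 2 * W) - 27 * (x * (α * β * γ / δ - α * β)) =
    W * Phi36 e h q - 16 * ((1 + a ^ 2 + x ^ 2) / t)
      - 27 * ((q - 1) * (h * e * (h + 3) / (2 * (h + 1 - e)) * W
        * ((x ^ 2 - 1 - a ^ 2) / r ^ 2))) := by
  have hW := R.hW
  have hδ := R.hδ
  have hγ := R.hγ
  have hq : 0 < q := by rw [hqe]; exact div_pos hγ hδ
  have hu : 0 < 1 - e - h * e := by linarith [R.hL3]
  have ht : t = (1 - e - h * e) * q * W := by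
    have := R.tγ
    rw [hqe]
    field_simp
    linear_combination this
  have hτ : 0 < (1 - e - h * e) * q := by positivity
  have e1 := f_eq R X hτ ht
  have e2 := ax_eq R X hu hq ht
  have e3 := xab_eq R X
  have e4 : γ * δ = q * (qD e h * W) := by
    have : qD e h * W = δ ^ 2 := by rw [R.D2]; rfl
    rw [this, hqe]; field_simp
  have e5 : α * β * γ / δ = α * β * q := by rw [hqe]; ring
  rw [e1, e4, e5, R.A2]
  have e6 : x * (α * β * q - α * β) = (q - 1) * (x * (α * β)) := by ring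
  rw [e6, e3]
  have e7 : 75 * (a * x) = 75 * (W * ((qB e h * (h + 1 - e) ^ 2 * e ^ 2
      + h * e * (h + 3) ^ 2 * e ^ 2) / (2 * (qD e h * ((1 - e - h * e) * q))))
      - (1 + a ^ 2 + x ^ 2) / (2 * t)) := by rw [← e2]
  rw [e7]
  unfold Phi36
  have e8 : (1 + a ^ 2 + x ^ 2) / (2 * t) = (1 + a ^ 2 + x ^ 2) / t / 2 := by
    rw [div_div, mul_comm t 2]
  rw [e8]
  ring

/-- the integer is integral -/
theorem F_int (I : II a b c r s t W e α β γ δ) (X : RX a b c r s t x d) :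
    IsI (-33 * α ^ 2 - 63 * (e ^ 2 * W) + 33 * (2 * W - γ * δ) + 75 * (a * x)
      - 43 * (2 * (W + e * W - t) + a * x - e ^ 2 * W)
      - 27 * (x * (α * β * γ / δ - α * β))) := by
  have i2 : IsI (2 : ℝ) := ⟨2, by norm_num⟩
  have i27 : IsI (27 : ℝ) := ⟨27, by norm_num⟩
  have i33 : IsI (33 : ℝ) := ⟨33, by norm_num⟩
  have i33' : IsI (-33 : ℝ) := ⟨-33, by norm_num⟩
  have i43 : IsI (43 : ℝ) := ⟨43, by norm_num⟩
  have i63 : IsI (63 : ℝ) := ⟨63, by norm_num⟩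
  have i75 : IsI (75 : ℝ) := ⟨75, by norm_num⟩
  refine (((((i33'.mul I.iA).sub (i63.mul I.iM)).add (i33.mul ((i2.mul I.iW).sub I.iCD))).add
    (i75.mul (I.ia.mul X.ix))).sub (i43.mul ?_)).sub (i27.mul (X.ix.mul (I.iK.sub I.iAB)))
  exact ((i2.mul ((I.iW.add I.iU).sub I.it)).add (I.ia.mul X.ix)).sub I.iM

theorem le_of_pow {x y : ℝ} (hx : 0 ≤ x) (hy : 0 ≤ y) {n : ℕ} (hn : n ≠ 0) (h : x ^ n ≤ y ^ n) :
    x ≤ y := (pow_le_pow_iff_left₀ hx hy hn).1 h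

theorem b_large (ha : 2 ≤ a) (hb : 0 < b) (n1 : 1000000 * (a ^ 2 * b) ≤ c)
    (n2 : 1000000000000 * (a ^ 10 * c ^ 3) ≤ b ^ 7) : 10000000 * a ^ 4 ≤ b := by
  have ha0 : 0 < a := by linarith
  have h0 : (0 : ℝ) ≤ 1000000 * (a ^ 2 * b) := by positivity
  have h1 : (1000000 * (a ^ 2 * b)) ^ 3 ≤ c ^ 3 := pow_le_pow_left₀ h0 n1 3
  have h2 : 1000000000000 * (a ^ 10 * (1000000 * (a ^ 2 * b)) ^ 3) ≤ b ^ 7 := by
    refine le_trans ?_ n2
    gcongr
  have h3 : (10 ^ 30 * a ^ 16) * b ^ 3 ≤ b ^ 4 * b ^ 3 := by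
    calc (10 ^ 30 * a ^ 16) * b ^ 3 = 1000000000000 * (a ^ 10 * (1000000 * (a ^ 2 * b)) ^ 3) := by
          ring
      _ ≤ b ^ 7 := h2
      _ = b ^ 4 * b ^ 3 := by ring
  have h4 : 10 ^ 30 * a ^ 16 ≤ b ^ 4 := le_of_mul_le_mul_right h3 (by positivity)
  refine le_of_pow (by positivity) hb.le (n := 4) (by norm_num) ?_
  calc (10000000 * a ^ 4) ^ 4 = 10 ^ 28 * a ^ 16 := by ring
    _ ≤ 10 ^ 30 * a ^ 16 := by
      have : 0 ≤ a ^ 16 := by positivity
      nlinarith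
    _ ≤ b ^ 4 := h4

theorem u1 (ha : 0 < a) (hb : 0 < b) (hc : 0 < c) (he : 0 < e) (hW : 0 < W)
    (p1 : e ^ 3 * b < a) (p3 : W ^ 2 ≤ b * c)
    (n2 : 1000000000000 * (a ^ 10 * c ^ 3) ≤ b ^ 7) : W * e ^ 5 ≤ 1 / 100 := by
  refine le_of_pow (by positivity) (by norm_num) (n := 6) (by norm_num) ?_
  have h1 : (W ^ 2) ^ 3 ≤ (b * c) ^ 3 := pow_le_pow_left₀ (by positivity) p3 3
  have h2 : (e ^ 3 * b) ^ 10 ≤ a ^ 10 := pow_le_pow_left₀ (by positivity) p1.le 10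
  have h3 : (W * e ^ 5) ^ 6 * b ^ 10 ≤ (1 / 100) ^ 6 * b ^ 10 := by
    calc (W * e ^ 5) ^ 6 * b ^ 10 = (W ^ 2) ^ 3 * (e ^ 3 * b) ^ 10 := by ring
      _ ≤ (b * c) ^ 3 * a ^ 10 := mul_le_mul h1 h2 (by positivity) (by positivity)
      _ = b ^ 3 * (a ^ 10 * c ^ 3) := by ring
      _ ≤ b ^ 3 * ((1 / 100) ^ 6 * b ^ 7) := by
          apply mul_le_mul_of_nonneg_left _ (by positivity)
          norm_num
          linarith
      _ = (1 / 100) ^ 6 * b ^ 10 := by ring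
  exact le_of_mul_le_mul_right h3 (by positivity)

theorem u2 (ha : 0 < a) (hb : 0 < b) (hc : 0 < c) (he : 0 < e) (hh : 0 < h) (hW : 0 < W)
    (p1 : e ^ 3 * b < a) (p3 : W ^ 2 ≤ b * c) (p5 : h * c ≤ b)
    (n1 : 1000000 * (a ^ 2 * b) ≤ c) : W * (e ^ 3 * h) ≤ 1 / 1000 := by
  refine le_of_pow (by positivity) (by norm_num) (n := 2) (by norm_num) ?_
  have h2 : (e ^ 3 * b) ^ 2 ≤ a ^ 2 := pow_le_pow_left₀ (by positivity) p1.le 2
  have h4 : (h * c) ^ 2 ≤ b ^ 2 := pow_le_pow_left₀ (by positivity) p5 2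
  have h3 : (W * (e ^ 3 * h)) ^ 2 * (b ^ 2 * c ^ 2) ≤ (1 / 1000) ^ 2 * (b ^ 2 * c ^ 2) := by
    calc (W * (e ^ 3 * h)) ^ 2 * (b ^ 2 * c ^ 2)
        = W ^ 2 * ((e ^ 3 * b) ^ 2 * (h * c) ^ 2) := by ring
      _ ≤ (b * c) * (a ^ 2 * b ^ 2) := by gcongr
      _ = (b ^ 2 * c) * (a ^ 2 * b) := by ring
      _ ≤ (b ^ 2 * c) * ((1 / 1000) ^ 2 * c) := by
          apply mul_le_mul_of_nonneg_left _ (by positivity)
          norm_num
          linarith
      _ = (1 / 1000) ^ 2 * (b ^ 2 * c ^ 2) := by ring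
  exact le_of_mul_le_mul_right h3 (by positivity)

theorem u3 (ha : 0 < a) (hb : 0 < b) (hc : 0 < c) (he : 0 < e) (hh : 0 < h) (hW : 0 < W)
    (p1 : e ^ 3 * b < a) (p3 : W ^ 2 ≤ b * c) (p5 : h * c ≤ b)
    (n1 : 1000000 * (a ^ 2 * b) ≤ c) (hf : b ^ 5 < 2 * (a ^ 8 * c ^ 3)) :
    W * (e ^ 2 * h ^ 2) ≤ 1 / 1000 := by
  refine le_of_pow (by positivity) (by norm_num) (n := 6) (by norm_num) ?_
  have h1 : (W ^ 2) ^ 3 ≤ (b * c) ^ 3 := pow_le_pow_left₀ (by positivity) p3 3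
  have h2 : (e ^ 3 * b) ^ 4 ≤ a ^ 4 := pow_le_pow_left₀ (by positivity) p1.le 4
  have h4 : (h * c) ^ 12 ≤ b ^ 12 := pow_le_pow_left₀ (by positivity) p5 12
  have g1 : (1000000 * (a ^ 2 * b)) ^ 4 ≤ c ^ 4 := pow_le_pow_left₀ (by positivity) n1 4
  have g2 : (1000000 * (a ^ 2 * b)) ^ 2 ≤ c ^ 2 := pow_le_pow_left₀ (by positivity) n1 2
  have g3 : 10 ^ 24 * b ^ 9 ≤ 2 * c ^ 7 := by
    calc (10 : ℝ) ^ 24 * b ^ 9 = (10 ^ 24 * b ^ 4) * b ^ 5 := by ring
      _ ≤ (10 ^ 24 * b ^ 4) * (2 * (a ^ 8 * c ^ 3)) :=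
          mul_le_mul_of_nonneg_left hf.le (by positivity)
      _ = 2 * c ^ 3 * (1000000 * (a ^ 2 * b)) ^ 4 := by ring
      _ ≤ 2 * c ^ 3 * c ^ 4 := mul_le_mul_of_nonneg_left g1 (by positivity)
      _ = 2 * c ^ 7 := by ring
  have g4 : 10 ^ 36 * (a ^ 4 * b ^ 11) ≤ 2 * c ^ 9 := by
    calc 10 ^ 36 * (a ^ 4 * b ^ 11) = (1000000 * (a ^ 2 * b)) ^ 2 * (10 ^ 24 * b ^ 9) := by ring
      _ ≤ c ^ 2 * (2 * c ^ 7) := mul_le_mul g2 g3 (by positivity) (by positivity)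
      _ = 2 * c ^ 9 := by ring
  have h3 : (W * (e ^ 2 * h ^ 2)) ^ 6 * (b ^ 4 * c ^ 12) ≤ (1 / 1000) ^ 6 * (b ^ 4 * c ^ 12) := by
    calc (W * (e ^ 2 * h ^ 2)) ^ 6 * (b ^ 4 * c ^ 12)
        = (W ^ 2) ^ 3 * ((e ^ 3 * b) ^ 4 * (h * c) ^ 12) := by ring
      _ ≤ (b * c) ^ 3 * (a ^ 4 * b ^ 12) := by gcongr
      _ = (b ^ 4 * c ^ 3) * (a ^ 4 * b ^ 11) := by ring
      _ ≤ (b ^ 4 * c ^ 3) * ((1 / 1000) ^ 6 * c ^ 9) := by
          apply mul_le_mul_of_nonneg_left _ (by positivity)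
          have : 0 < c ^ 9 := by positivity
          norm_num at g4 ⊢
          linarith
      _ = (1 / 1000) ^ 6 * (b ^ 4 * c ^ 12) := by ring
  exact le_of_mul_le_mul_right h3 (by positivity)

theorem u4 (ha : 0 < a) (hab : a ≤ b) (hc : 0 < c) (he : 0 < e) (hh : 0 < h) (hW : 0 < W)
    (p1 : e ^ 3 * b < a) (p3 : W ^ 2 ≤ b * c) (p5 : h * c ≤ b)
    (n1 : 1000000 * (a ^ 2 * b) ≤ c) : h * e ^ 2 * W * (a / b) ≤ 1 / 1000 := by
  have hb : 0 < b := by linarith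
  refine le_of_pow (by positivity) (by norm_num) (n := 6) (by norm_num) ?_
  have h1 : (W ^ 2) ^ 3 ≤ (b * c) ^ 3 := pow_le_pow_left₀ (by positivity) p3 3
  have h2 : (e ^ 3 * b) ^ 4 ≤ a ^ 4 := pow_le_pow_left₀ (by positivity) p1.le 4
  have h4 : (h * c) ^ 6 ≤ b ^ 6 := pow_le_pow_left₀ (by positivity) p5 6
  have g1 : (1000000 * (a ^ 2 * b)) ^ 3 ≤ c ^ 3 := pow_le_pow_left₀ (by positivity) n1 3
  have g2 : a ^ 4 ≤ b ^ 4 := pow_le_pow_left₀ ha.le hab 4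
  have h3 : (h * e ^ 2 * W * (a / b)) ^ 6 * (b ^ 10 * c ^ 6) ≤
      (1 / 1000) ^ 6 * (b ^ 10 * c ^ 6) := by
    calc (h * e ^ 2 * W * (a / b)) ^ 6 * (b ^ 10 * c ^ 6)
        = (W ^ 2) ^ 3 * ((e ^ 3 * b) ^ 4 * (h * c) ^ 6) * a ^ 6 := by field_simp
      _ ≤ (b * c) ^ 3 * (a ^ 4 * b ^ 6) * a ^ 6 := by gcongr
      _ = (b ^ 6 * c ^ 3 * a ^ 4) * ((1 / 1000) ^ 6 * (1000000 * (a ^ 2 * b)) ^ 3) := by ring
      _ ≤ (b ^ 6 * c ^ 3 * b ^ 4) * ((1 / 1000) ^ 6 * c ^ 3) := by gcongr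
      _ = (1 / 1000) ^ 6 * (b ^ 10 * c ^ 6) := by ring
  exact le_of_mul_le_mul_right h3 (by positivity)

end F36

set_option maxHeartbeats 4000000 in
/-- BLOCK F36 -/
theorem F36_bound (R : RD a b c r s t W e h α β γ δ) (I : II a b c r s t W e α β γ δ)
    (X : RX a b c r s t x d) (ha2 : 2 ≤ a) (hf : b ^ 5 < 2 * (a ^ 8 * c ^ 3))
    (hΦ : ∀ q : ℝ, 0 < q → q ^ 2 * qD e h = qC e h → e ≤ 1 / 100 → h ≤ 1 / 100 →
      14 * e ^ 5 + 100 * (e ^ 3 * h) + 20 * (e ^ 2 * h ^ 2) ≤ Phi36 e h q ∧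
      Phi36 e h q ≤ 20 * e ^ 5 + 200 * (e ^ 3 * h) + 50 * (e ^ 2 * h ^ 2)) :
    c < 1000000 * (a ^ 2 * b) ∨ b ^ 7 < 1000000000000 * (a ^ 10 * c ^ 3) := by
  by_contra hcon
  push Not at hcon
  obtain ⟨n1, n2⟩ := hcon
  obtain ⟨p1, p2, p3, p4, p5, p6, p7, p8⟩ := sz1 R
  have ha0 : 0 < a := by linarith
  have hb0 : 0 < b := by linarith
  have hab : a ≤ b := by linarith [R.hb]
  have he := R.he
  have hh := R.hh
  have hW := R.hW
  have hr := R.hr
  have ht := R.ht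
  have hc0 : 0 < c := by
    have := R.hc
    have : 0 < 4 * a * b := by positivity
    linarith
  have a2 : 4 ≤ a ^ 2 := by nlinarith
  have a4 : 8 * a ≤ a ^ 4 := by
    have : 8 ≤ a ^ 3 := by
      have := pow_le_pow_left₀ (by norm_num : (0 : ℝ) ≤ 2) ha2 3
      linarith
    calc 8 * a ≤ a ^ 3 * a := by gcongr
      _ = a ^ 4 := by ring
  have hbl := F36.b_large ha2 hb0 n1 n2
  have he400 : e ≤ 1 / 400 := by
    refine F36.le_of_pow he.le (by norm_num) (n := 3) (by norm_num) ?_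
    have h1 : 80000000 * a ≤ b := by linarith
    have h2 : e ^ 3 * (80000000 * a) ≤ e ^ 3 * b := by gcongr
    have h3 : (e ^ 3 * 80000000) * a ≤ 1 * a := by linarith
    have h4 := le_of_mul_le_mul_right h3 ha0
    norm_num
    linarith
  have hh6 : h ≤ 1 / 1000000 := by
    have h1 : h * (1000000 * (a ^ 2 * b)) ≤ h * c := by gcongr
    have h2 : h * (1000000 * (1 * b)) ≤ h * (1000000 * (a ^ 2 * b)) := by
      gcongr
      linarith
    have h3 : (h * 1000000) * b ≤ 1 * b := by linarith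
    have h4 := le_of_mul_le_mul_right h3 hb0
    linarith
  have hcb : 4000000 * b ≤ c := by
    have : 1000000 * (4 * b) ≤ 1000000 * (a ^ 2 * b) := by gcongr
    linarith
  obtain ⟨s1, s2, s3, s4, s5⟩ := sz2 R (by linarith) (by linarith)
  obtain ⟨q, hqe⟩ : ∃ q, q = γ / δ := ⟨_, rfl⟩
  have hγ := R.hγ
  have hδ := R.hδ
  have hq0 : 0 < q := by rw [hqe]; exact div_pos hγ hδ
  have hD := F36.qD_pos R
  have hq2 : q ^ 2 * qD e h = qC e h := by
    have e1 : qD e h * W = δ ^ 2 := by rw [R.D2]; rfl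
    have e2 : qC e h * W = γ ^ 2 := by rw [R.C2]; rfl
    have e3 : (q ^ 2 * qD e h) * W = qC e h * W := by
      rw [mul_assoc, e1, e2, hqe]; field_simp
    exact mul_right_cancel₀ hW.ne' e3
  obtain ⟨l1, l2⟩ := hΦ q hq0 hq2 (by linarith) (by linarith)
  have hF := F36.F_eq R X hqe
  have hI := F36.F_int I X
  rw [hF] at hI
  -- bounds for q
  have heh : 0 < h * e := by positivity
  have heh' : h * e ≤ 1 / 1000000 * e := by gcongr
  have ee : e ^ 2 ≤ 1 / 400 * e := by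
    rw [sq]; exact mul_le_mul_of_nonneg_right he400 he.le
  have ee0 : 0 ≤ e ^ 2 := sq_nonneg e
  have q1 : 1 < q := by
    by_contra hle
    push Not at hle
    have h0 : q ^ 2 ≤ 1 := pow_le_one₀ hq0.le hle
    have h1 : qC e h ≤ qD e h := by
      rw [← hq2]
      calc q ^ 2 * qD e h ≤ 1 * qD e h := mul_le_mul_of_nonneg_right h0 hD.le
        _ = qD e h := one_mul _
    unfold qC qD at h1
    linarith
  have q2 : q - 1 ≤ 203 / 100 * e := by
    have h1 : (q - 1) * (q + 1) * qD e h = 4 * (h * e) + 8 * e - 2 * e ^ 2 := by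
      have : (q - 1) * (q + 1) * qD e h = q ^ 2 * qD e h - qD e h := by ring
      rw [this, hq2]; unfold qC qD; ring
    have h2 : 198 / 100 ≤ qD e h := by
      unfold qD; linarith
    have h3 : (q - 1) * 2 * (198 / 100) ≤ (q - 1) * (q + 1) * qD e h := by
      apply mul_le_mul _ h2 (by norm_num) _
      · apply mul_le_mul_of_nonneg_left _ (by linarith)
        linarith
      · apply mul_nonneg <;> linarith
    rw [h1] at h3
    linarith
  -- the coefficient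
  obtain ⟨g, hg⟩ : ∃ g, g = h * e * (h + 3) / (2 * (h + 1 - e)) * W := ⟨_, rfl⟩
  have hden : 0 < 2 * (h + 1 - e) := by linarith
  have g0 : 0 < g := by rw [hg]; positivity
  have g1 : g ≤ 151 / 100 * (h * e * W) := by
    rw [hg]
    have h1 : h * e * (h + 3) / (2 * (h + 1 - e)) ≤ 151 / 100 * (h * e) := by
      rw [div_le_iff₀ hden]
      have : h + 3 ≤ 151 / 100 * (2 * (h + 1 - e)) := by linarith
      calc h * e * (h + 3) ≤ h * e * (151 / 100 * (2 * (h + 1 - e))) := by gcongr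
        _ = _ := by ring
    calc h * e * (h + 3) / (2 * (h + 1 - e)) * W ≤ 151 / 100 * (h * e) * W := by gcongr
      _ = _ := by ring
  obtain ⟨Z, hZ⟩ : ∃ Z, Z = (x ^ 2 - 1 - a ^ 2) / r ^ 2 := ⟨_, rfl⟩
  have hx2 := X.x2
  have hd1 := X.d1
  have hdc := X.dc
  have hr2 := R.r2
  have Z1 : Z ≤ d / b := by
    rw [hZ, div_le_div_iff₀ (by positivity) hb0, ← hx2, ← hr2]
    have z1 : 0 ≤ a ^ 2 * b := by positivity
    linarith
  have Z2 : -(a / b) ≤ Z := by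
    rw [hZ, neg_le, ← neg_div, div_le_div_iff₀ (by positivity) hb0, ← hx2, ← hr2]
    have z1 : 0 ≤ a * d * b := by positivity
    linarith
  have hcoef : (q - 1) * g ≤ 203 / 100 * e * (151 / 100 * (h * e * W)) :=
    mul_le_mul q2 g1 g0.le (by positivity)
  have hqg : 0 ≤ (q - 1) * g := mul_nonneg (by linarith) g0.le
  obtain ⟨Y, hY⟩ : ∃ Y, Y = e ^ 2 * W := ⟨_, rfl⟩
  have hY0 : 0 < Y := by rw [hY]; positivity
  have T3u : 27 * ((q - 1) * (g * Z)) ≤ 5 / 2 * (Y * a / b) := by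
    have h1 : (q - 1) * (g * Z) ≤ (q - 1) * g * (d / b) := by
      rw [← mul_assoc]; exact mul_le_mul_of_nonneg_left Z1 hqg
    have h2 : (q - 1) * g * (d / b) ≤ 203 / 100 * e * (151 / 100 * (h * e * W)) * (d / b) :=
      mul_le_mul_of_nonneg_right hcoef (by positivity)
    have h3 : 203 / 100 * e * (151 / 100 * (h * e * W)) * (d / b) =
        30653 / 10000 * (Y / b) * (h * d) := by
      rw [hY]; ring
    have h4 : h * d * a ≤ 12 / 100 := by
      have h5 : h * (4 * a * b * d) ≤ h * c := by gcongr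
      have h6 : (h * d * a) * b ≤ 12 / 100 * b := by linarith
      exact le_of_mul_le_mul_right h6 hb0
    have h7 : h * d ≤ 3 / 100 * a := by
      have h8 : (h * d) * a ≤ 3 / 100 * a * a := by
        have : 3 / 100 * a * a = 3 / 100 * a ^ 2 := by ring
        rw [this]; linarith
      exact le_of_mul_le_mul_right h8 ha0
    have h9 : 30653 / 10000 * (Y / b) * (h * d) ≤ 30653 / 10000 * (Y / b) * (3 / 100 * a) := by
      gcongr
    have h10 : 30653 / 10000 * (Y / b) * (3 / 100 * a) = 91959 / 1000000 * (Y * a / b) := by ring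
    have h11 : 0 < Y * a / b := by positivity
    rw [h3] at h2
    rw [h10] at h9
    linarith
  have T1u : 16 * ((1 + a ^ 2 + x ^ 2) / t) ≤ Y * a / b := by
    rw [← mul_div_assoc, div_le_div_iff₀ ht hb0, ← hx2]
    have h1 : 16 * (1 + a ^ 2 + (a * d + 1)) * b ≤ 5 * c := by
      have z1 : 4 * b ≤ a ^ 2 * b := mul_le_mul_of_nonneg_right a2 hb0.le
      have z2 : 16 * (1 + a ^ 2 + (a * d + 1)) * b =
        16 * (a ^ 2 * b) + 32 * b + 4 * (4 * a * b * d) := by ring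
      rw [z2]
      linarith
    have h2 : 784 ≤ e ^ 2 * a * b := by
      have h3 : 784 * e ≤ e ^ 2 * a * b * e := by
        have : e ^ 2 * a * b * e = (e ^ 3 * b) * a := by ring
        rw [this]
        have h4 : 49 / 100 * a * a ≤ (e ^ 3 * b) * a := by
          apply mul_le_mul_of_nonneg_right _ ha0.le
          linarith
        have h5 : 49 / 100 * a * a = 49 / 100 * a ^ 2 := by ring
        rw [h5] at h4
        linarith
      exact le_of_mul_le_mul_right h3 he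
    have h5 : 5 * c ≤ Y * a * W := by
      have h6 : Y * a * W = e ^ 2 * a * W ^ 2 := by rw [hY]; ring
      rw [h6]
      have h7 : e ^ 2 * a * (95 / 100 * (b * c)) ≤ e ^ 2 * a * W ^ 2 := by
        apply mul_le_mul_of_nonneg_left _ (by positivity)
        linarith
      have h8 : e ^ 2 * a * (95 / 100 * (b * c)) = 95 / 100 * c * (e ^ 2 * a * b) := by ring
      have h9 : 95 / 100 * c * 784 ≤ 95 / 100 * c * (e ^ 2 * a * b) := by gcongr
      linarith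
    have h10 : Y * a * W ≤ Y * a * t := by
      apply mul_le_mul_of_nonneg_left p7.le (by positivity)
    linarith
  have hlow : 686 / 100 * (Y * a / b) ≤ W * Phi36 e h q := by
    have h1 : W * (14 * e ^ 5) ≤ W * Phi36 e h q := by
      apply mul_le_mul_of_nonneg_left _ hW.le
      have : 0 ≤ 100 * (e ^ 3 * h) + 20 * (e ^ 2 * h ^ 2) := by positivity
      linarith
    refine le_trans ?_ h1
    have h2 : W * (14 * e ^ 5) = 14 * Y * e ^ 3 := by rw [hY]; ring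
    rw [h2, mul_div_assoc', div_le_iff₀ hb0]
    have h3 : 14 * Y * (49 / 100 * a) ≤ 14 * Y * (e ^ 3 * b) := by
      apply mul_le_mul_of_nonneg_left _ (by positivity)
      linarith
    linarith
  have hpos : 0 < W * Phi36 e h q - 16 * ((1 + a ^ 2 + x ^ 2) / t) - 27 * ((q - 1) * (g * Z)) := by
    have : 0 < Y * a / b := by positivity
    linarith
  have hup : W * Phi36 e h q ≤ 9 / 20 := by
    have h1 : W * Phi36 e h q ≤ W * (20 * e ^ 5 + 200 * (e ^ 3 * h) + 50 * (e ^ 2 * h ^ 2)) :=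
      mul_le_mul_of_nonneg_left l2 hW.le
    have h2 := F36.u1 ha0 hb0 hc0 he hW p1 p3 n2
    have h3 := F36.u2 ha0 hb0 hc0 he hh hW p1 p3 p5 n1
    have h4 := F36.u3 ha0 hb0 hc0 he hh hW p1 p3 p5 n1 hf
    have h5 : W * (20 * e ^ 5 + 200 * (e ^ 3 * h) + 50 * (e ^ 2 * h ^ 2)) =
        20 * (W * e ^ 5) + 200 * (W * (e ^ 3 * h)) + 50 * (W * (e ^ 2 * h ^ 2)) := by ring
    linarith
  have T1l : 0 ≤ 16 * ((1 + a ^ 2 + x ^ 2) / t) := by positivity
  have T3l : -(1 / 10) ≤ 27 * ((q - 1) * (g * Z)) := by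
    have h1 : (q - 1) * g * (-(a / b)) ≤ (q - 1) * (g * Z) := by
      rw [← mul_assoc]; exact mul_le_mul_of_nonneg_left Z2 hqg
    have h2 : (q - 1) * g * (a / b) ≤ 203 / 100 * e * (151 / 100 * (h * e * W)) * (a / b) :=
      mul_le_mul_of_nonneg_right hcoef (by positivity)
    have h3 := F36.u4 ha0 hab hc0 he hh hW p1 p3 p5 n1
    have h4 : 203 / 100 * e * (151 / 100 * (h * e * W)) * (a / b) =
        30653 / 10000 * (h * e ^ 2 * W * (a / b)) := by ring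
    have h5 : (q - 1) * g * (-(a / b)) = -((q - 1) * g * (a / b)) := by ring
    rw [h4] at h2
    rw [h5] at h1
    linarith
  have hI' : IsI (W * Phi36 e h q - 16 * ((1 + a ^ 2 + x ^ 2) / t)
      - 27 * ((q - 1) * (g * Z))) := by
    rw [hg, hZ]; exact hI
  have := hI'.one_le hpos
  linarith

end Pool.Agent.Work.MP_71a505_up
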